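import Pool.Agent.H387.QR.Defs4

/-!
# T10B. Parity maps and pairings

`twPair_base`, `twPair_nest` (see helper387's file `h387_QR_T10B.lean` for the paper proof).
-/

set_option autoImplicit false
set_option linter.unusedSectionVars false
set_option linter.unusedVariables false

namespace Pool.Agent.H387.QR.T10B

open scoped TensorProduct

variable {I : Type} [Fintype I] [DecidableEq I] {C : Cartan I} {K : Type*} [Field K] [HasQ K]
variable {M : Type*} [AddCommGroup M] [Module K M] {N : Type*} [AddCommGroup N] [Module K N]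

theorem br_symm (i j : I) : C.br i j = C.br j i := C.symm i j

theorem br_diag (i : I) : C.br i i = 2 * C.d i := by
  rw [Cartan.br, C.diag]; ring

theorem exists_br_ne {k : I → ℤ} (hk : k ≠ 0) : ∃ i, ∑ j, C.br i j * k j ≠ 0 := by
  by_contra h
  push Not at h
  have h1 := C.pos k hk
  have e : ∑ i, ∑ j, k i * (C.d i * C.a i j) * k j = ∑ i, k i * ∑ j, C.br i j * k j := by
    refine Finset.sum_congr rfl (fun i _ => ?_)
    rw [Finset.mul_sum]
    refine Finset.sum_congr rfl (fun j _ => ?_)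
    rw [Cartan.br]; ring
  rw [e] at h1
  simp [h] at h1

theorem zpow_q_inj {a b : ℤ} (h : qq K ^ a = qq K ^ b) : a = b := by
  by_contra hne
  have h1 : qq K ^ (a - b) = 1 := by
    rw [zpow_sub₀ HasQ.q_ne, h, div_self (zpow_ne_zero _ HasQ.q_ne)]
  exact q_zpow_ne_one (sub_ne_zero.mpr hne) h1

theorem off_indep (V : Mod C K M) (n : I → ℤ) : iSupIndep (V.off n) := by
  have h1 : iSupIndep fun χ : I → K ↦ ⨅ i, Module.End.maxGenEigenspace (V.Kp i) (χ i) := by
    refine Module.End.independent_iInf_maxGenEigenspace_of_forall_mapsTo (fun i => V.Kp i)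
      (fun i j φ => Module.End.mapsTo_maxGenEigenspace_of_comm ?_ φ)
    ext x
    exact V.kcomm j i x
  let χ : (I → ℤ) → (I → K) := fun k i => qq K ^ (n i - ∑ j, C.br i j * k j)
  have hχ : Function.Injective χ := by
    intro k k' h
    by_contra hne
    obtain ⟨i, hi⟩ := exists_br_ne (C := C) (sub_ne_zero.mpr hne)
    apply hi
    have h2 := zpow_q_inj (congrFun h i)
    simp only [Pi.sub_apply, mul_sub, Finset.sum_sub_distrib]
    omega
  refine (h1.comp hχ).mono ?_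
  intro k x hx
  simp only [Function.comp, Submodule.mem_iInf]
  intro i
  apply Module.End.eigenspace_le_maxGenEigenspace
  rw [Module.End.mem_eigenspace_iff]
  exact hx i

/-- spanning subfamilies of an independent family are everything -/
theorem full {ι : Type*} {A : ι → Submodule K M} (hA : iSupIndep A) {B : ι → Submodule K M}
    (hBA : ∀ k, B k ≤ A k) (hB : ⨆ k, B k = ⊤) (k : ι) : A k ≤ B k := by
  intro x hx
  have hx1 : x ∈ B k ⊔ ⨆ (j) (_ : j ≠ k), A j := by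
    have h1 : (⊤ : Submodule K M) ≤ B k ⊔ ⨆ (j) (_ : j ≠ k), A j := by
      rw [← hB]
      apply iSup_le
      intro j
      by_cases h : j = k
      · subst h; exact le_sup_left
      · refine (hBA j).trans (le_trans ?_ le_sup_right)
        exact le_iSup₂_of_le (f := fun j (_ : j ≠ k) => A j) j h le_rfl
    exact h1 trivial
  obtain ⟨s, hs, u, hu, rfl⟩ := Submodule.mem_sup.mp hx1
  have hu' : u ∈ A k := by
    have := (A k).sub_mem hx (hBA k hs)
    simpa using this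
  have h2 := (iSupIndep_def.mp hA k).le_bot ⟨hu', hu⟩
  rw [Submodule.mem_bot] at h2
  rw [h2, add_zero]; exact hs

theorem sum_single (f k : I → ℤ) (i : I) :
    ∑ j, f j * (k + Pi.single i 1 : I → ℤ) j = ∑ j, f j * k j + f i := by
  simp only [Pi.add_apply, mul_add, Finset.sum_add_distrib]
  congr 1
  rw [Finset.sum_eq_single i]
  · simp
  · intro j _ hj; simp [hj]
  · intro h; exact absurd (Finset.mem_univ _) h

theorem sum_single' (f k : I → ℤ) (i : I) :
    ∑ j, f j * (k - Pi.single i 1 : I → ℤ) j = ∑ j, f j * k j - f i := by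
  have := sum_single f (k - Pi.single i 1) i
  rw [sub_add_cancel] at this
  omega

theorem F_off {V : Mod C K M} {n k : I → ℤ} {x : M} (hx : x ∈ V.off n k) (i : I) :
    V.F i x ∈ V.off n (k + Pi.single i 1) := by
  intro i'
  rw [V.kf, hx i', map_smul, smul_smul, ← zpow_add₀ HasQ.q_ne, sum_single]
  congr 2; ring

theorem E_off {V : Mod C K M} {n k : I → ℤ} {x : M} (hx : x ∈ V.off n k) (i : I) :
    V.E i x ∈ V.off n (k - Pi.single i 1) := by
  intro i'
  rw [V.ke, hx i', map_smul, smul_smul, ← zpow_add₀ HasQ.q_ne, sum_single']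
  congr 2; ring

/-- the content of a word -/
def cnt (w : List I) : I → ℤ := fun j => (w.count j : ℤ)

theorem cnt_nil : cnt ([] : List I) = 0 := by
  funext j; simp [cnt]

theorem cnt_cons (i : I) (w : List I) : cnt (i :: w) = cnt w + Pi.single i 1 := by
  funext j
  simp only [cnt, Pi.add_apply, List.count_cons]
  by_cases h : i = j
  · subst h; simp
  · have : j ≠ i := fun e => h e.symm
    simp [h, this]

theorem cnt_eq_zero {w : List I} (h : cnt w = 0) : w = [] := by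
  cases w with
  | nil => rfl
  | cons i w =>
    exfalso
    have := congrFun h i
    simp [cnt] at this
    omega

theorem Fw_off {V : Mod C K M} {n : I → ℤ} {v : M} (hv : v ∈ V.off n 0) (w : List I) :
    V.Fw w v ∈ V.off n (cnt w) := by
  induction w with
  | nil => rw [cnt_nil]; exact hv
  | cons i w ih =>
    rw [cnt_cons, Mod.Fw_cons, LinearMap.comp_apply]
    exact F_off ih i

theorem Ew_off {V : Mod C K M} {n : I → ℤ} {v : M} (hv : v ∈ V.off n 0) (w : List I) :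
    V.Ew w v ∈ V.off n (-cnt w) := by
  induction w with
  | nil => rw [cnt_nil, neg_zero]; exact hv
  | cons i w ih =>
    rw [cnt_cons, Mod.Ew_cons, LinearMap.comp_apply, neg_add, ← sub_eq_add_neg]
    exact E_off ih i

theorem sgn {a b : ℤ} (h : Even (a - b)) : (-1 : K) ^ a = (-1) ^ b := by
  have e : a = b + (a - b) := by ring
  rw [e, zpow_add₀ (neg_ne_zero.mpr one_ne_zero), h.neg_one_zpow, mul_one]

/-- `off n 0` is spanned by the highest weight vector -/
theorem off_zero {V : Mod C K M} {n lam : I → ℤ} {v : M} (hv : IsHigh V lam v)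
    (hn : ∀ i, n i = C.d i * lam i) {x : M} (hx : x ∈ V.off n 0) : ∃ c : K, x = c • v := by
  have hv0 : v ∈ V.off n 0 := by
    intro i
    rw [hv.wt i, hn i]
    simp
  have h1 := full (off_indep V n)
    (B := fun k => Submodule.span K {y | ∃ w : List I, cnt w = k ∧ y = V.Fw w v}) ?_ ?_ 0 hx
  · have h2 : Submodule.span K {y | ∃ w : List I, cnt w = 0 ∧ y = V.Fw w v}
        ≤ Submodule.span K {v} := by
      apply Submodule.span_mono
      rintro y ⟨w, hw, rfl⟩
      rw [cnt_eq_zero hw]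
      simp
    obtain ⟨c, hc⟩ := Submodule.mem_span_singleton.mp (h2 h1)
    exact ⟨c, hc.symm⟩
  · intro k
    rw [Submodule.span_le]
    rintro y ⟨w, rfl, rfl⟩
    exact Fw_off hv0 w
  · rw [eq_top_iff, ← hv.span, Submodule.span_le]
    rintro y ⟨w, rfl⟩
    apply Submodule.mem_iSup_of_mem (cnt w)
    exact Submodule.subset_span ⟨w, rfl, rfl⟩

/-- `off (-n) (-k)` is spanned by the `E_w l` with `w` of content `k` -/
theorem off_low {V' : Mod C K N} {n lam : I → ℤ} {l : N} (hl : IsLow V' (-lam) l)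
    (hn : ∀ i, n i = C.d i * lam i) {k : I → ℤ} {y : N} (hy : y ∈ V'.off (-n) (-k)) :
    y ∈ Submodule.span K {y | ∃ w : List I, cnt w = k ∧ y = V'.Ew w l} := by
  have hl0 : l ∈ V'.off (-n) 0 := by
    intro i
    rw [hl.wt i]
    simp [hn i]
  have h1 : iSupIndep (fun k => V'.off (-n) (-k)) := (off_indep V' (-n)).comp neg_injective
  refine full h1
    (B := fun k => Submodule.span K {y | ∃ w : List I, cnt w = k ∧ y = V'.Ew w l}) ?_ ?_ k hy
  · intro k
    rw [Submodule.span_le]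
    rintro y ⟨w, rfl, rfl⟩
    exact Ew_off hl0 w
  · rw [eq_top_iff, ← hl.span, Submodule.span_le]
    rintro y ⟨w, rfl⟩
    apply Submodule.mem_iSup_of_mem (cnt w)
    exact Submodule.subset_span ⟨w, rfl, rfl⟩

/-- the quadratic form along a step -/
theorem quad_step (k : I → ℤ) (i : I) :
    ∑ a, ∑ b, (k + Pi.single i 1 : I → ℤ) a * C.br a b * (k + Pi.single i 1 : I → ℤ) b =
      ∑ a, ∑ b, k a * C.br a b * k b + 2 * (∑ j, C.br i j * k j + C.d i) := by
  have h1 : ∀ m : I → ℤ, ∑ a, ∑ b, m a * C.br a b * m b = ∑ a, (∑ b, C.br a b * m b) * m a := by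
    intro m
    refine Finset.sum_congr rfl (fun a _ => ?_)
    rw [Finset.sum_mul]
    exact Finset.sum_congr rfl (fun b _ => by ring)
  rw [h1, h1]
  have h2 : ∀ a, ∑ b, C.br a b * (k + Pi.single i 1 : I → ℤ) b = ∑ b, C.br a b * k b + C.br a i :=
    fun a => sum_single (C.br a) k i
  simp only [h2]
  rw [sum_single (fun a => ∑ b, C.br a b * k b + C.br a i) k i]
  simp only [add_mul, Finset.sum_add_distrib]
  rw [br_diag i]
  have h3 : ∑ a, C.br a i * k a = ∑ j, C.br i j * k j :=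
    Finset.sum_congr rfl (fun a _ => by rw [br_symm])
  rw [h3]; ring

theorem omg_step (β : I → I → ℤ) (n φ φ' k : I → ℤ) (i : I) :
    omg C β n φ φ' (k + Pi.single i 1) = omg C β n φ φ' k + (∑ j, C.br i j * k j + C.d i)
      + (C.d i + β i i + n i + φ i + φ' i) := by
  unfold omg
  rw [quad_step, Int.add_mul_ediv_left _ _ (by norm_num : (2 : ℤ) ≠ 0)]
  rw [sum_single (fun i => (C.d i + β i i + n i + φ i + φ' i)) k i]
  ring

theorem omg_zero (β : I → I → ℤ) (n φ φ' : I → ℤ) : omg C β n φ φ' 0 = 0 := by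
  simp [omg]

theorem twPair_base {σ : K →+* K} (hσ : σ (qq K) = -qq K)
    (β : I → I → ℤ) (hβ : ∀ i j, i ≠ j → Even (β i j + β j i - C.br i j))
    (V : Mod C K M) (V' : Mod C K N) {n φ φ' : I → ℤ} {s : M →ₛₗ[σ] M} {s' : N →ₛₗ[σ] N}
    (hs : IsTw σ V β n φ s) (hs' : IsTw σ V' β (-n) φ' s') {lam : I → ℤ} {v : M} {l : N}
    (hv : IsHigh V lam v) (hl : IsLow V' (-lam) l) (hn : ∀ i, n i = C.d i * lam i)
    {ev : N →ₗ[K] M →ₗ[K] K} (hev : IsPair V' V ev) (h1 : ev l v = 1)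
    (sv : s v = v) {u : K} (sl : s' l = u • l) :
    TwPair σ V' V ev β n φ φ' s' s u := by
  have hl0 : l ∈ V'.off (-n) 0 := by
    intro i
    rw [hl.wt i]
    simp [hn i]
  -- the claim for words
  have key : ∀ w : List I, ∀ x ∈ V.off n (cnt w),
      ev (s' (V'.Ew w l)) (s x) = u * (-1 : K) ^ omg C β n φ φ' (cnt w) * σ (ev (V'.Ew w l) x) := by
    intro w
    induction w with
    | nil =>
      intro x hx
      rw [cnt_nil] at hx ⊢
      obtain ⟨c, rfl⟩ := off_zero hv hn hx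
      rw [omg_zero]
      simp only [Mod.Ew_nil, LinearMap.id_apply, sl, LinearMap.map_smulₛₗ, sv, map_smul,
        LinearMap.smul_apply, h1, smul_eq_mul, zpow_zero, map_mul, map_one]
      ring
    | cons i w ih =>
      intro x hx
      set k := cnt w with hk
      set y := V'.Ew w l with hy
      have hyoff : y ∈ V'.off (-n) (-k) := Ew_off hl0 w
      have hx' : x ∈ V.off n (k + Pi.single i 1) := by rwa [cnt_cons] at hx
      have hEx : V.E i x ∈ V.off n k := by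
        have := E_off hx' i
        rwa [add_sub_cancel_right] at this
      have ihx := ih _ hEx
      have e1 : V'.Ew (i :: w) l = V'.E i y := rfl
      rw [e1, cnt_cons, ← hk, omg_step]
      -- left side
      rw [hs'.E i _ y hyoff]
      have hsE := hs.E i _ x hx'
      have h3 := hev.E i (s' y) (s x)
      have h4 : V'.Kp i (s' y) = qq K ^ ((-n) i - ∑ j, C.br i j * (-k) j) • s' y :=
        hs'.off _ y hyoff i
      have h5 := hev.E i y x
      have h6 : V'.Kp i y = qq K ^ ((-n) i - ∑ j, C.br i j * (-k) j) • y := hyoff i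
      set Nn : ℤ := (-n) i - ∑ j, C.br i j * (-k) j with hNn
      set A : ℤ := ∑ j, β j i * (k + Pi.single i 1 : I → ℤ) j + n i + C.d i + β i i + φ i with hA
      set A' : ℤ := ∑ j, β j i * (-k) j + (-n) i + C.d i + β i i + φ' i with hA'
      rw [h4] at h3
      rw [h6] at h5
      have hneg : (-1 : K) ≠ 0 := neg_ne_zero.mpr one_ne_zero
      have h7 : V.E i (s x) = (-1 : K) ^ A • s (V.E i x) := by
        rw [hsE, smul_smul, ← zpow_add₀ hneg]
        have : Even (A + A) := ⟨A, rfl⟩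
        rw [this.neg_one_zpow, one_smul]
      rw [h7] at h3
      simp only [map_smul, LinearMap.smul_apply, smul_eq_mul] at h3 h5 ⊢
      have h8 : ev (V'.E i (s' y)) (s x) = -((-1 : K) ^ A * (qq K ^ Nn * ev (s' y) (s (V.E i x)))) :=
        eq_neg_of_add_eq_zero_left h3
      have h9 : ev (V'.E i y) x = -(qq K ^ Nn * ev y (V.E i x)) :=
        eq_neg_of_add_eq_zero_left h5
      rw [h8, h9, ihx, map_neg, map_mul, map_zpow₀, hσ]
      have h10 : (-qq K) ^ Nn = (-1 : K) ^ Nn * qq K ^ Nn := by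
        rw [← mul_zpow, neg_one_mul]
      rw [h10]
      have h11 : (-1 : K) ^ A' * (-1 : K) ^ A * (-1 : K) ^ omg C β n φ φ' k =
          (-1 : K) ^ (omg C β n φ φ' k + (∑ j, C.br i j * k j + C.d i)
            + (C.d i + β i i + n i + φ i + φ' i)) * (-1 : K) ^ Nn := by
        rw [← zpow_add₀ hneg, ← zpow_add₀ hneg, ← zpow_add₀ hneg]
        apply sgn
        rw [hA, hA', hNn, sum_single]
        have e2 : ∑ j, β j i * (-k) j = - ∑ j, β j i * k j := by simp
        have e3 : ∑ j, C.br i j * (-k) j = - ∑ j, C.br i j * k j := by simp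
        rw [e2, e3]
        simp only [Pi.neg_apply]
        refine ⟨β i i - ∑ j, C.br i j * k j, ?_⟩
        ring
      calc (-1 : K) ^ A' * -((-1 : K) ^ A * (qq K ^ Nn * (u * (-1 : K) ^ omg C β n φ φ' k
              * σ (ev y (V.E i x)))))
          = -(((-1 : K) ^ A' * (-1 : K) ^ A * (-1 : K) ^ omg C β n φ φ' k) *
              (qq K ^ Nn * u * σ (ev y (V.E i x)))) := by ring
        _ = _ := by rw [h11]; ring
  intro k x hx y hy
  have hy' := off_low hl hn hy
  clear hy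
  induction hy' using Submodule.span_induction with
  | mem y hy =>
    obtain ⟨w, rfl, rfl⟩ := hy
    exact key w x hx
  | zero => simp
  | add y₁ y₂ _ _ h₁ h₂ =>
    rw [map_add, map_add, LinearMap.add_apply, h₁, h₂, map_add, LinearMap.add_apply, map_add]
    ring
  | smul c y _ h =>
    rw [LinearMap.map_smulₛₗ, map_smul, LinearMap.smul_apply, h, map_smul, LinearMap.smul_apply,
      smul_eq_mul, smul_eq_mul, map_mul]
    ring

section nest

variable {M₁ M₂ N₁ N₂ : Type*} [AddCommGroup M₁] [Module K M₁] [AddCommGroup M₂] [Module K M₂]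
  [AddCommGroup N₁] [Module K N₁] [AddCommGroup N₂] [Module K N₂]

/-- the span of the tensors of homogeneous vectors -/
def tB (V₁ : Mod C K M₁) (V₂ : Mod C K M₂) (n₁ n₂ k : I → ℤ) : Submodule K (M₁ ⊗[K] M₂) :=
  Submodule.span K {z | ∃ a b : I → ℤ, a + b = k ∧ ∃ x ∈ V₁.off n₁ a, ∃ y ∈ V₂.off n₂ b,
    z = x ⊗ₜ[K] y}

theorem tmul_off {V₁ : Mod C K M₁} {V₂ : Mod C K M₂} {n₁ n₂ a b : I → ℤ} {x : M₁} {y : M₂}
    (hx : x ∈ V₁.off n₁ a) (hy : y ∈ V₂.off n₂ b) :
    x ⊗ₜ[K] y ∈ (V₁.tensor V₂).off (n₁ + n₂) (a + b) := by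
  intro i
  have e : (V₁.tensor V₂).Kp i (x ⊗ₜ[K] y) = (V₁.Kp i x) ⊗ₜ[K] (V₂.Kp i y) := rfl
  rw [e, hx i, hy i, TensorProduct.smul_tmul_smul, ← zpow_add₀ HasQ.q_ne]
  congr 2
  simp only [Pi.add_apply, mul_add, Finset.sum_add_distrib]
  ring

theorem tB_top {V₁ : Mod C K M₁} {V₂ : Mod C K M₂} {n₁ n₂ : I → ℤ}
    (h₁ : ⨆ k : I → ℤ, V₁.off n₁ k = ⊤) (h₂ : ⨆ k : I → ℤ, V₂.off n₂ k = ⊤) :
    ⨆ k : I → ℤ, tB V₁ V₂ n₁ n₂ k = ⊤ := by
  rw [eq_top_iff]
  intro z _
  induction z using TensorProduct.induction_on with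
  | zero => exact zero_mem _
  | add x y hx hy => exact add_mem (hx trivial) (hy trivial)
  | tmul x y =>
    have hx : x ∈ ⨆ k : I → ℤ, V₁.off n₁ k := by rw [h₁]; trivial
    have hy : y ∈ ⨆ k : I → ℤ, V₂.off n₂ k := by rw [h₂]; trivial
    induction hx using Submodule.iSup_induction' with
    | zero => rw [TensorProduct.zero_tmul]; exact zero_mem _
    | add x₁ x₂ _ _ h₁ h₂ => rw [TensorProduct.add_tmul]; exact add_mem (h₁ trivial) (h₂ trivial)
    | mem a x hx =>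
      induction hy using Submodule.iSup_induction' with
      | zero => rw [TensorProduct.tmul_zero]; exact zero_mem _
      | add x₁ x₂ _ _ h₁ h₂ => rw [TensorProduct.tmul_add]; exact add_mem (h₁ trivial) (h₂ trivial)
      | mem b y hy =>
        apply Submodule.mem_iSup_of_mem (a + b)
        exact Submodule.subset_span ⟨a, b, rfl, x, hx, y, hy, rfl⟩

theorem tensor_off {V₁ : Mod C K M₁} {V₂ : Mod C K M₂} {n₁ n₂ : I → ℤ}
    (h₁ : ⨆ k : I → ℤ, V₁.off n₁ k = ⊤) (h₂ : ⨆ k : I → ℤ, V₂.off n₂ k = ⊤) {k : I → ℤ}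
    {z : M₁ ⊗[K] M₂} (hz : z ∈ (V₁.tensor V₂).off (n₁ + n₂) k) : z ∈ tB V₁ V₂ n₁ n₂ k := by
  refine full (off_indep (V₁.tensor V₂) (n₁ + n₂)) (B := tB V₁ V₂ n₁ n₂) ?_ (tB_top h₁ h₂) k hz
  intro k
  rw [tB, Submodule.span_le]
  rintro z ⟨a, b, rfl, x, hx, y, hy, rfl⟩
  exact tmul_off hx hy

/-- orthogonality of weight vectors under an invariant pairing -/
theorem orth {V' : Mod C K N} {V : Mod C K M} {ev : N →ₗ[K] M →ₗ[K] K} (p : IsPair V' V ev)
    {n a b : I → ℤ} (hab : a + b ≠ 0) {y : N} {x : M} (hy : y ∈ V'.off (-n) a)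
    (hx : x ∈ V.off n b) : ev y x = 0 := by
  obtain ⟨i, hi⟩ := exists_br_ne (C := C) hab
  have h := p.Kp i y x
  rw [hy i, hx i] at h
  simp only [map_smul, LinearMap.smul_apply, smul_eq_mul] at h
  rw [← mul_assoc, ← zpow_add₀ HasQ.q_ne] at h
  by_contra hne
  have h1 : qq K ^ (n i - ∑ j, C.br i j * b j + ((-n) i - ∑ j, C.br i j * a j)) = 1 := by
    have : (qq K ^ (n i - ∑ j, C.br i j * b j + ((-n) i - ∑ j, C.br i j * a j)) - 1) * ev y x
        = 0 := by rw [sub_mul, one_mul, h, sub_self]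
    rcases mul_eq_zero.mp this with h2 | h2
    · exact sub_eq_zero.mp h2
    · exact absurd h2 hne
  refine q_zpow_ne_one ?_ h1
  intro h2
  apply hi
  simp only [Pi.add_apply, Pi.neg_apply, mul_add, Finset.sum_add_distrib] at h2 ⊢
  omega

theorem sym_even (f : I → I → ℤ) (hs : ∀ i j, f i j = f j i) (hd : ∀ i, Even (f i i))
    (s : Finset I) : Even (∑ i ∈ s, ∑ j ∈ s, f i j) := by
  induction s using Finset.induction_on with
  | empty => simp
  | insert a s ha ih =>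
    rw [Finset.sum_insert ha, Finset.sum_insert ha]
    have h1 : ∑ i ∈ s, ∑ j ∈ insert a s, f i j = ∑ i ∈ s, f a i + ∑ i ∈ s, ∑ j ∈ s, f i j := by
      rw [← Finset.sum_add_distrib]
      refine Finset.sum_congr rfl (fun i _ => ?_)
      rw [Finset.sum_insert ha, hs i a]
    rw [h1]
    have h2 : f a a + ∑ x ∈ s, f a x + (∑ i ∈ s, f a i + ∑ i ∈ s, ∑ j ∈ s, f i j) =
        f a a + (∑ x ∈ s, f a x + ∑ x ∈ s, f a x) + ∑ i ∈ s, ∑ j ∈ s, f i j := by ring
    rw [h2]
    exact ((hd a).add ⟨_, rfl⟩).add ih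

theorem parity (β : I → I → ℤ) (hβ : ∀ i j, i ≠ j → Even (β i j + β j i - C.br i j))
    (n₁ n₂ φ₁ φ₂ φ₁' φ₂' a b : I → ℤ) :
    Even ((∑ i, ∑ j, β i j * (-a) i * (-b) j + ∑ i, ((-n₁) i + φ₂' i + φ₁' i) * (-b) i) +
      (∑ i, ∑ j, β i j * b i * a j + ∑ i, (n₂ i + φ₁ i + φ₂ i) * a i) +
      omg C β n₁ φ₁ φ₁' a + omg C β n₂ φ₂ φ₂' b - omg C β (n₁ + n₂) φ₂ φ₁' (a + b)) := by
  unfold omg
  -- the quadratic form is even
  have hB : ∀ x y : I → ℤ, ∑ i, ∑ j, x i * C.br i j * y j = ∑ i, ∑ j, y i * C.br i j * x j := by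
    intro x y
    rw [Finset.sum_comm]
    refine Finset.sum_congr rfl (fun i _ => Finset.sum_congr rfl (fun j _ => ?_))
    rw [br_symm i j]; ring
  have hq : ∑ i, ∑ j, (a + b) i * C.br i j * (a + b) j =
      ∑ i, ∑ j, a i * C.br i j * a j + ∑ i, ∑ j, b i * C.br i j * b j
        + 2 * ∑ i, ∑ j, a i * C.br i j * b j := by
    have h1 : ∑ i, ∑ j, (a + b) i * C.br i j * (a + b) j =
      ∑ i, ∑ j, a i * C.br i j * a j + ∑ i, ∑ j, b i * C.br i j * b j
        + ∑ i, ∑ j, a i * C.br i j * b j + ∑ i, ∑ j, b i * C.br i j * a j := by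
      simp only [← Finset.sum_add_distrib]
      refine Finset.sum_congr rfl (fun i _ => Finset.sum_congr rfl (fun j _ => ?_))
      simp only [Pi.add_apply]; ring
    rw [h1, hB b a]; ring
  have hev : ∀ x : I → ℤ, Even (∑ i, ∑ j, x i * C.br i j * x j) := by
    intro x
    refine sym_even (fun i j => x i * C.br i j * x j) (fun i j => ?_) (fun i => ?_) Finset.univ
    · rw [br_symm i j]; ring
    · rw [br_diag]; exact ⟨x i * C.d i * x i, by ring⟩
  obtain ⟨A, hA⟩ := hev a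
  obtain ⟨B, hB'⟩ := hev b
  rw [hq, hA, hB']
  have hT : Even (∑ i, ∑ j, β i j * (-a) i * (-b) j + ∑ i, ∑ j, β i j * b i * a j
      - ∑ i, ∑ j, a i * C.br i j * b j) := by
    rw [Finset.sum_comm (f := fun i j => β i j * b i * a j)]
    simp only [← Finset.sum_add_distrib, ← Finset.sum_sub_distrib]
    refine Finset.even_sum _ (fun i _ => Finset.even_sum _ (fun j _ => ?_))
    have e : β i j * (-a) i * (-b) j + β j i * b j * a i - a i * C.br i j * b j =
        a i * b j * (β i j + β j i - C.br i j) := by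
      simp only [Pi.neg_apply]; ring
    rw [e]
    by_cases h : i = j
    · subst h
      rw [br_diag]
      exact ⟨a i * b i * (β i i - C.d i), by ring⟩
    · exact (hβ i j h).mul_left _
  have hL : Even (∑ i, ((-n₁) i + φ₂' i + φ₁' i) * (-b) i + ∑ i, (n₂ i + φ₁ i + φ₂ i) * a i
      + ∑ i, (C.d i + β i i + n₁ i + φ₁ i + φ₁' i) * a i
      + ∑ i, (C.d i + β i i + n₂ i + φ₂ i + φ₂' i) * b i
      - ∑ i, (C.d i + β i i + (n₁ + n₂) i + φ₂ i + φ₁' i) * (a + b) i) := by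
    simp only [← Finset.sum_add_distrib, ← Finset.sum_sub_distrib]
    refine Finset.even_sum _ (fun i _ => ?_)
    refine ⟨φ₁ i * a i - φ₁' i * b i, ?_⟩
    simp only [Pi.neg_apply, Pi.add_apply]; ring
  obtain ⟨T, hT⟩ := hT
  obtain ⟨L, hL⟩ := hL
  refine ⟨T + L, ?_⟩
  generalize (∑ i, ∑ j, β i j * (-a) i * (-b) j) = g1 at *
  generalize (∑ i, ∑ j, β i j * b i * a j) = g2 at *
  generalize (∑ i, ∑ j, a i * C.br i j * b j) = g3 at *
  omega

theorem twPair_nest {σ : K →+* K} (hσ : σ (qq K) = -qq K)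
    (β : I → I → ℤ) (hβ : ∀ i j, i ≠ j → Even (β i j + β j i - C.br i j))
    (V₁ : Mod C K M₁) (V₂ : Mod C K M₂) (V₁' : Mod C K N₁) (V₂' : Mod C K N₂)
    {n₁ n₂ φ₁ φ₂ φ₁' φ₂' : I → ℤ} {s₁ : M₁ →ₛₗ[σ] M₁} {s₂ : M₂ →ₛₗ[σ] M₂}
    {s₁' : N₁ →ₛₗ[σ] N₁} {s₂' : N₂ →ₛₗ[σ] N₂}
    (t₁ : IsTw σ V₁ β n₁ φ₁ s₁) (t₂ : IsTw σ V₂ β n₂ φ₂ s₂)
    (t₁' : IsTw σ V₁' β (-n₁) φ₁' s₁') (t₂' : IsTw σ V₂' β (-n₂) φ₂' s₂')
    {ev₁ : N₁ →ₗ[K] M₁ →ₗ[K] K} {ev₂ : N₂ →ₗ[K] M₂ →ₗ[K] K}
    (p₁ : IsPair V₁' V₁ ev₁) (p₂ : IsPair V₂' V₂ ev₂) {u₁ u₂ : K}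
    (w₁ : TwPair σ V₁' V₁ ev₁ β n₁ φ₁ φ₁' s₁' s₁ u₁)
    (w₂ : TwPair σ V₂' V₂ ev₂ β n₂ φ₂ φ₂' s₂' s₂ u₂)
    {S : M₁ ⊗[K] M₂ →ₛₗ[σ] M₁ ⊗[K] M₂} {S' : N₂ ⊗[K] N₁ →ₛₗ[σ] N₂ ⊗[K] N₁}
    (hS : ∀ k l : I → ℤ, ∀ x ∈ V₁.off n₁ k, ∀ y ∈ V₂.off n₂ l, S (x ⊗ₜ y) =
        (-1 : K) ^ (∑ i, ∑ j, β i j * l i * k j + ∑ i, (n₂ i + φ₁ i + φ₂ i) * k i) •
          (s₁ x ⊗ₜ[K] s₂ y))
    (hS' : ∀ k l : I → ℤ, ∀ x ∈ V₂'.off (-n₂) k, ∀ y ∈ V₁'.off (-n₁) l, S' (x ⊗ₜ y) =
        (-1 : K) ^ (∑ i, ∑ j, β i j * l i * k j + ∑ i, ((-n₁) i + φ₂' i + φ₁' i) * k i) •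
          (s₂' x ⊗ₜ[K] s₁' y)) :
    TwPair σ (V₂'.tensor V₁') (V₁.tensor V₂) (nest ev₁ ev₂) β (n₁ + n₂) φ₂ φ₁' S' S (u₁ * u₂) := by
  intro k x hx y hy
  have hneg : (-1 : K) ≠ 0 := neg_ne_zero.mpr one_ne_zero
  have hx' := tensor_off t₁.dec t₂.dec hx
  have hy1 : y ∈ (V₂'.tensor V₁').off (-n₂ + -n₁) (-k) := by
    have e : -(n₁ + n₂) = -n₂ + -n₁ := by abel
    rwa [e] at hy
  have hy' := tensor_off t₂'.dec t₁'.dec hy1
  clear hx hy hy1
  unfold tB at hx' hy'
  induction hx' using Submodule.span_induction with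
  | zero => simp
  | add x₁ x₂ _ _ h₁ h₂ =>
    rw [map_add, map_add, h₁, h₂, map_add, map_add]
    ring
  | smul c x _ h =>
    rw [LinearMap.map_smulₛₗ, map_smul, h, map_smul, smul_eq_mul, smul_eq_mul, map_mul]
    ring
  | mem x hx =>
    obtain ⟨a, b, hab, x₁, hx₁, x₂, hx₂, rfl⟩ := hx
    induction hy' using Submodule.span_induction with
    | zero => simp
    | add y₁ y₂ _ _ h₁ h₂ =>
      rw [map_add, map_add, LinearMap.add_apply, h₁, h₂, map_add, LinearMap.add_apply, map_add]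
      ring
    | smul c y _ h =>
      rw [LinearMap.map_smulₛₗ, map_smul, LinearMap.smul_apply, h, map_smul, LinearMap.smul_apply,
        smul_eq_mul, smul_eq_mul, map_mul]
      ring
    | mem y hy =>
      obtain ⟨a', b', hab', y₂, hy₂, y₁, hy₁, rfl⟩ := hy
      rw [hS a b x₁ hx₁ x₂ hx₂, hS' a' b' y₂ hy₂ y₁ hy₁]
      simp only [map_smul, LinearMap.smul_apply, nest_tmul, smul_eq_mul, map_mul]
      by_cases h0 : b' + a = 0
      · have hb' : b' = -a := eq_neg_of_add_eq_zero_left h0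
        have ha' : a' = -b := by
          subst hb'
          have : a' = -k + a := by rw [← hab']; abel
          rw [this, ← hab]; abel
        subst hb' ha'
        rw [w₁ a x₁ hx₁ y₁ hy₁, w₂ b x₂ hx₂ y₂ hy₂]
        have hp := parity β hβ n₁ n₂ φ₁ φ₂ φ₁' φ₂' a b
        have hp' := sgn (K := K) hp
        rw [hab, zpow_add₀ hneg _ (omg C β n₂ φ₂ φ₂' b), zpow_add₀ hneg _ (omg C β n₁ φ₁ φ₁' a),
          zpow_add₀ hneg (_ + _) (_ + _)] at hp'
        rw [← hp']
        ring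
      · rw [orth p₁ h0 hy₁ hx₁, orth p₁ h0 (t₁'.off _ _ hy₁) (t₁.off _ _ hx₁)]
        simp

end nest

end Pool.Agent.H387.QR.T10B

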